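import Pool.Agent.SHP.Stmts

/-!
# MP_d2d93c_nt, squad SHP, row FR2 (helper24): far from the diagonal, `C^x ≤ B^y`
-/

set_option autoImplicit false

namespace Pool.Agent.SHP.H24

/-- `B^7 ≤ A^4`. -/
theorem aux_B7 {f g A : ℕ} (hg : 0 < g) (hf : (10 * g) ^ 12 ≤ f) (hA : f ^ 2 ≤ 2 * A) :
    (2 * f * g) ^ 7 ≤ A ^ 4 := by
  have h1 : 2048 * g ^ 7 ≤ f := by
    have h2 : g ^ 7 ≤ g ^ 12 := Nat.pow_le_pow_right hg (by norm_num)
    have h3 : (10 * g) ^ 12 = 1000000000000 * g ^ 12 := by rw [mul_pow]; norm_num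
    omega
  have h4 : 16 * (2 * f * g) ^ 7 ≤ 16 * A ^ 4 := by
    calc 16 * (2 * f * g) ^ 7 = (2048 * g ^ 7) * f ^ 7 := by ring
      _ ≤ f * f ^ 7 := Nat.mul_le_mul_right _ h1
      _ = (f ^ 2) ^ 4 := by ring
      _ ≤ (2 * A) ^ 4 := Nat.pow_le_pow_left hA 4
      _ = 16 * A ^ 4 := by ring
  omega

theorem fr2 (hK : KeyStmt) : Fr2Stmt := by
  intro f g x y z hg hcop hodd hf hx hy hz hle heq
  have h10 : 10 * g ≤ f := le_trans (Nat.le_self_pow (by norm_num) _) hf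
  have hg12 : 1 ≤ g ^ 12 := Nat.one_le_pow _ _ hg
  have hexp : (10 * g) ^ 12 = 1000000000000 * g ^ 12 := by rw [mul_pow]; norm_num
  have hf1 : 1000000000000 ≤ f := by omega
  have hgf : g < f := by omega
  have hsq : g ^ 2 < f ^ 2 := Nat.pow_lt_pow_left hgf (by norm_num)
  have hsq2 : 100 * g ^ 2 ≤ f ^ 2 := by
    calc 100 * g ^ 2 = (10 * g) ^ 2 := by ring
      _ ≤ f ^ 2 := Nat.pow_le_pow_left h10 2
  have hg2 : 1 ≤ g ^ 2 := Nat.one_le_pow _ _ hg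
  obtain ⟨A, hA⟩ : ∃ A : ℕ, A = f ^ 2 - g ^ 2 := ⟨_, rfl⟩
  have hAf : A + g ^ 2 = f ^ 2 := by omega
  have hA2 : f ^ 2 ≤ 2 * A := by omega
  have hf2 : 1000000000000 * 1000000000000 ≤ f ^ 2 := by
    rw [pow_two]
    exact Nat.mul_le_mul hf1 hf1
  have hA128 : 128 < A := by omega
  rw [← hA] at heq
  obtain ⟨C, hC⟩ : ∃ C : ℕ, C = f ^ 2 + g ^ 2 := ⟨_, rfl⟩
  rw [← hC] at heq hle
  have hAC : A < C := by omega
  have hB7 := aux_B7 hg hf hA2
  obtain ⟨B, hB⟩ : ∃ B : ℕ, B = 2 * f * g := ⟨_, rfl⟩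
  rw [← hB] at heq hle hB7
  have hfB : f ≤ B := by
    rw [hB]
    have : f * 1 ≤ f * g := Nat.mul_le_mul_left _ hg
    have h2 : 2 * f * g = 2 * (f * g) := by ring
    omega
  have hBy : 0 < B ^ y := Nat.pow_pos (by omega)
  have hCx : 0 < C ^ x := Nat.pow_pos (by omega)
  -- `x < z`
  have hxz : x < z := by
    by_contra h
    have h1 : A ^ z < C ^ z := Nat.pow_lt_pow_left hAC (by omega)
    have h2 : C ^ z ≤ C ^ x := Nat.pow_le_pow_right (by omega) (by omega)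
    omega
  -- `y < 2 z`
  have hy2z : y < 2 * z := by
    have h1 : f ^ y ≤ B ^ y := Nat.pow_le_pow_left hfB y
    have h2 : A ^ z ≤ (f ^ 2) ^ z := Nat.pow_le_pow_left (by omega) z
    have h3 : f ^ y < f ^ (2 * z) := by
      rw [pow_mul]
      omega
    exact (Nat.pow_lt_pow_iff_right (by omega)).1 h3
  -- `7 z ≤ 4 y`
  have h7z : 7 * z ≤ 4 * y := by
    by_contra h
    have h1 : A ^ (4 * y + 1) ≤ A ^ (7 * z) := Nat.pow_le_pow_right (by omega) (by omega)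
    have h2 : A ^ (7 * z) = (A ^ z) ^ 7 := by rw [← pow_mul, mul_comm]
    have h3 : (A ^ z) ^ 7 ≤ (2 * B ^ y) ^ 7 := Nat.pow_le_pow_left (by omega) 7
    have h4 : (2 * B ^ y) ^ 7 = 128 * (B ^ 7) ^ y := by
      rw [mul_pow, ← pow_mul, ← pow_mul, mul_comm y 7]
      norm_num
    have h5 : (B ^ 7) ^ y ≤ (A ^ 4) ^ y := Nat.pow_le_pow_left hB7 y
    have h6 : (A ^ 4) ^ y = A ^ (4 * y) := by rw [← pow_mul]
    have h7 : A ^ (4 * y) * A ≤ A ^ (4 * y) * 128 := by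
      rw [← pow_succ]
      omega
    have h8 : A ≤ 128 := Nat.le_of_mul_le_mul_left h7 (Nat.pow_pos (by omega))
    omega
  obtain ⟨u, hu⟩ : ∃ u : ℕ, 2 * z = y + u := ⟨2 * z - y, by omega⟩
  obtain ⟨k, hk⟩ : ∃ k : ℕ, y = z + k := ⟨y - z, by omega⟩
  have hkey : f ^ u * B ^ y = 2 ^ k * g ^ y * (2 * f ^ 2) ^ z := by
    have e1 : f ^ (2 * z) = f ^ y * f ^ u := by rw [hu, pow_add]
    have e2 : 2 ^ y = 2 ^ z * 2 ^ k := by rw [hk, pow_add]
    rw [hB, mul_pow, mul_pow, mul_pow, ← pow_mul, e1, e2]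
    ring
  have hcopZ : IsCoprime (A : ℤ) (C : ℤ) := by
    rw [Nat.isCoprime_iff_coprime]
    apply Nat.Coprime.symm
    have hCodd : Odd C := by
      rw [hC]
      rcases hodd with ⟨r, hr⟩
      have hs : (f + g) ^ 2 = (f ^ 2 + g ^ 2) + 2 * (f * g) := by ring
      have hs2 : (f + g) ^ 2 = 2 * (2 * r * r + 2 * r) + 1 := by rw [hr]; ring
      refine ⟨(2 * r * r + 2 * r) - f * g, ?_⟩
      omega
    have h1 : Nat.Coprime C 2 := (Nat.coprime_two_right).2 hCodd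
    have h2 : Nat.Coprime (f ^ 2) (g ^ 2) := Nat.Coprime.pow _ _ hcop
    have h3 : Nat.Coprime C (g ^ 2) := by
      rw [hC]
      exact (Nat.coprime_add_self_left).2 h2
    have h4 : Nat.Coprime C (2 * g ^ 2) := Nat.Coprime.mul_right h1 h3
    have h5 : C = A + 2 * g ^ 2 := by omega
    rw [Nat.coprime_iff_gcd_eq_one] at h4 ⊢
    have h6 : Nat.gcd C A ∣ Nat.gcd C (2 * g ^ 2) := by
      apply Nat.dvd_gcd (Nat.gcd_dvd_left _ _)
      have h7 : Nat.gcd C A ∣ C := Nat.gcd_dvd_left _ _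
      rw [h5] at h7
      have h8 : Nat.gcd C A ∣ A := Nat.gcd_dvd_right _ _
      rw [h5] at h8
      have h9 := (Nat.dvd_add_right h8).1 h7
      rw [← h5] at h9
      exact h9
    rw [h4] at h6
    exact Nat.dvd_one.1 h6
  have hAC2 : A + C = 2 * f ^ 2 := by omega
  have hACZ : (A : ℤ) + C = ((2 * f ^ 2 : ℕ) : ℤ) := by rw [← hAC2]; push_cast; ring
  have hdiff : |(A : ℤ) - C| = ((2 * g ^ 2 : ℕ) : ℤ) := by
    have h1 : (C : ℤ) = A + ((2 * g ^ 2 : ℕ) : ℤ) := by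
      rw [← Nat.cast_add]
      congr 1
      omega
    rw [h1, show (A : ℤ) - (A + ((2 * g ^ 2 : ℕ) : ℤ)) = -((2 * g ^ 2 : ℕ) : ℤ) by ring, abs_neg]
    exact abs_of_nonneg (Int.natCast_nonneg _)
  refine hK (A : ℤ) (C : ℤ) ((f ^ u : ℕ) : ℤ) ((2 ^ k * g ^ y : ℕ) : ℤ) (-1) z x u (Or.inr rfl)
    (by exact_mod_cast (by omega : 0 < A)) (by exact_mod_cast (by omega : 0 < C)) hcopZ
    (by exact_mod_cast Nat.pow_pos (by omega)) (by
      exact_mod_cast Nat.mul_pos (Nat.pow_pos (by norm_num)) (Nat.pow_pos hg)) hxz (by omega)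
    (by omega) ?_ ?_ ?_ ?_ ?_
  · rw [hACZ]
    have h1 : (A : ℤ) ^ z = (C : ℤ) ^ x + (B : ℤ) ^ y := by exact_mod_cast heq.symm
    have h2 : ((f ^ u : ℕ) : ℤ) * (B : ℤ) ^ y
        = ((2 ^ k * g ^ y : ℕ) : ℤ) * (((2 * f ^ 2 : ℕ) : ℤ)) ^ z := by exact_mod_cast hkey
    rw [← h2, h1]
    ring
  · rw [hACZ]
    have h1 : (f ^ u) ^ 2 ≤ (2 * f ^ 2) ^ u := by
      calc (f ^ u) ^ 2 = (f ^ 2) ^ u := by rw [← pow_mul, ← pow_mul, mul_comm]
        _ ≤ (2 * f ^ 2) ^ u := Nat.pow_le_pow_left (by omega) u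
    exact_mod_cast h1
  · rw [hACZ, hdiff]
    have h1 : (2 * g ^ 2) ^ 12 ≤ 2 * f ^ 2 := by
      have h2 : (2 * g ^ 2) ^ 12 = 4096 * (g ^ 12 * g ^ 12) := by ring
      have h3 : (1000000000000 * g ^ 12) * (1000000000000 * g ^ 12) ≤ f * f :=
        Nat.mul_le_mul (by omega) (by omega)
      have h4 : (1000000000000 * g ^ 12) * (1000000000000 * g ^ 12)
          = 1000000000000000000000000 * (g ^ 12 * g ^ 12) := by ring
      have h5 : f ^ 2 = f * f := by ring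
      omega
    exact_mod_cast h1
  · intro h
    have h1 : A = C := by exact_mod_cast h
    omega
  · rw [hACZ]
    have h1 : 81 ^ 12 ≤ 2 * f ^ 2 := by
      have h2 : (81 : ℕ) ^ 12 ≤ 1000000000000 * 1000000000000 := by norm_num
      omega
    exact_mod_cast h1

end Pool.Agent.SHP.H24
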